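import Mathlib

/-!
Atoms, allowed triangles and the one-point extension of networks.
-/

set_option autoImplicit false

namespace Pool.Agent.H94.WRRA

/-- Atoms of the algebra with index set `I`. -/
inductive At (I : Type) : Type
  | one | k | l | b | e | p | q
  | c (i : I)
  | a (i : I)

namespace At

/-- Oriented list of forbidden triangles; `F` is the set of strict indices. -/
def B0 {I : Type} (F : I → Prop) : At I → At I → At I → Prop
  | b, b, b => True
  | b, b, e => True
  | b, b, p => True
  | b, b, q => True
  | b, b, l => True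
  | b, b, c _ => True
  | p, q, k => True
  | p, q, b => True
  | p, q, e => True
  | p, q, p => True
  | p, q, q => True
  | p, q, c _ => True
  | p, c _, k => True
  | p, c _, b => True
  | p, c _, e => True
  | p, c _, p => True
  | p, c _, c _ => True
  | p, c i, a j => i ≠ j
  | q, c _, k => True
  | q, c _, b => True
  | q, c _, e => True
  | q, c _, q => True
  | q, c _, c _ => True
  | q, c i, a j => i ≠ j
  | c i, c j, a t => F i ∧ i = j ∧ i = t
  | a i, a j, a t => F i ∧ i = j ∧ i = t
  | e, b, c _ => True
  | _, _, _ => False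

/-- Allowed triangles. -/
def Ok {I : Type} (F : I → Prop) (r s t : At I) : Prop :=
  (r = one ∧ s = t) ∨ (s = one ∧ r = t) ∨ (t = one ∧ r = s) ∨
  (r ≠ one ∧ s ≠ one ∧ t ≠ one ∧ ¬ B0 F r s t ∧ ¬ B0 F r t s ∧ ¬ B0 F s r t ∧
    ¬ B0 F s t r ∧ ¬ B0 F t r s ∧ ¬ B0 F t s r)

theorem Ok.swap12 {I : Type} {F : I → Prop} {r s t : At I} (h : Ok F r s t) : Ok F s r t := by
  unfold Ok at *
  rcases h with ⟨h1, h2⟩ | ⟨h1, h2⟩ | ⟨h1, h2⟩ | h
  · exact Or.inr (Or.inl ⟨h1, h2⟩)
  · exact Or.inl ⟨h1, h2⟩
  · exact Or.inr (Or.inr (Or.inl ⟨h1, h2.symm⟩))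
  · refine Or.inr (Or.inr (Or.inr ?_))
    tauto

theorem Ok.swap23 {I : Type} {F : I → Prop} {r s t : At I} (h : Ok F r s t) : Ok F r t s := by
  unfold Ok at *
  rcases h with ⟨h1, h2⟩ | ⟨h1, h2⟩ | ⟨h1, h2⟩ | h
  · exact Or.inl ⟨h1, h2.symm⟩
  · exact Or.inr (Or.inr (Or.inl ⟨h1, h2⟩))
  · exact Or.inr (Or.inl ⟨h1, h2⟩)
  · refine Or.inr (Or.inr (Or.inr ?_))
    tauto

theorem Ok.swap13 {I : Type} {F : I → Prop} {r s t : At I} (h : Ok F r s t) : Ok F t s r :=
  h.swap12.swap23.swap12

theorem ok_one_left {I : Type} (F : I → Prop) (s : At I) : Ok F one s s := Or.inl ⟨rfl, rfl⟩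

theorem Ok.eq_of_one {I : Type} {F : I → Prop} {r s : At I} (h : Ok F r s one) : r = s := by
  rcases h with ⟨h1, h2⟩ | ⟨h1, h2⟩ | ⟨h1, h2⟩ | h
  · rw [h1, h2]
  · rw [h1, h2]
  · exact h2
  · exact absurd rfl h.2.2.1

theorem Ok.not_bce {I : Type} {F : I → Prop} {i : I} {t : At I} (h : Ok F b (c i) t) :
    t ≠ e := by
  rintro rfl
  simp [Ok, B0] at h

theorem Ok.not_cca {I : Type} {F : I → Prop} {i : I} {t : At I} (h : Ok F (c i) (c i) t)
    (hi : F i) : t ≠ a i := by
  rintro rfl
  simp [Ok, B0, hi] at h

open Classical in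
/-- The label forced between two points in the second kind of special position. -/
noncomputable def g {I : Type} (star : I) : At I → At I → Option I
  | p, q => some star
  | q, p => some star
  | p, c i => some i
  | q, c i => some i
  | c i, p => some i
  | c i, q => some i
  | _, _ => none

/-- being `p` or `q` -/
def IsPQ {I : Type} : At I → Prop
  | p => True
  | q => True
  | _ => False

theorem ok_k {I : Type} (F : I → Prop) (star : I) {r t : At I} (hr : r ≠ one) (ht : t ≠ one)
    (h : g star r t = none) : Ok F r t k := by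
  cases r <;> cases t <;> simp_all [Ok, B0, g]

theorem ok_l {I : Type} (F : I → Prop) {r t : At I} (hr : r ≠ one) (ht : t ≠ one)
    (h : ¬ (r = b ∧ t = b)) : Ok F r t l := by
  cases r <;> cases t <;> simp_all [Ok, B0]

theorem g_some {I : Type} (F : I → Prop) (star : I) {r t : At I} {j : I}
    (h : g star r t = some j) : r ≠ b ∧ t ≠ b ∧ Ok F r t l ∧ Ok F r t (a j) := by
  cases r <;> cases t <;> simp_all [Ok, B0, g]

theorem ok_bba {I : Type} (F : I → Prop) (j : I) : Ok F b b (a j) := by
  simp [Ok, B0]

theorem ok_bbk {I : Type} (F : I → Prop) : Ok F b b k := by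
  simp [Ok, B0]

theorem ok_bxe {I : Type} (F : I → Prop) {x : At I} (h : IsPQ x) : Ok F b x e := by
  cases x <;> simp_all [Ok, B0, IsPQ]

/-- being one of the generic labels -/
def Gen {I : Type} : At I → Prop
  | k => True
  | l => True
  | e => True
  | a _ => True
  | _ => False

theorem Gen.ne_one {I : Type} {x : At I} (h : Gen x) : x ≠ one := by
  rintro rfl; exact h

theorem Gen.ne_b {I : Type} {x : At I} (h : Gen x) : x ≠ b := by
  rintro rfl; exact h

theorem Gen.not_pq {I : Type} {x : At I} (h : Gen x) : ¬ IsPQ x := by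
  cases x <;> simp_all [Gen, IsPQ]

theorem ok_gen {I : Type} (F : I → Prop) {r s t : At I} (hr : Gen r) (hs : s ≠ one)
    (ht : Gen t) (h : ∀ j, F j → r = a j → t = a j → s ≠ a j) : Ok F r s t := by
  cases r <;> cases s <;> cases t <;> simp_all [Ok, B0, Gen]
  refine ⟨?_, ?_, ?_, ?_, ?_, ?_⟩ <;> intro hF h1 h2 <;> subst h1 <;> subst h2 <;>
    exact h _ hF rfl rfl rfl

open Classical in
/-- The label given to the pair (new point, old point), where the new point is attached by labels
`r` and `s` to two old points which have labels `x` and `y` to the old point. -/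
noncomputable def phi {I : Type} (star : I) (r s x y : At I) : At I :=
  match g star r x, g star s y with
  | some _, some _ => l
  | some i, none => if s = b ∧ y = b then a i else l
  | none, some j => if r = b ∧ x = b then a j else l
  | none, none =>
    if (r = b ∧ s = b ∧ IsPQ x ∧ IsPQ y) ∨ (x = b ∧ y = b ∧ IsPQ r ∧ IsPQ s) then e else k

theorem g_b_left {I : Type} (star : I) (x : At I) : g star b x = none := by
  cases x <;> rfl

theorem g_b_right {I : Type} (star : I) (x : At I) : g star x b = none := by
  cases x <;> rfl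

theorem phi_e1 {I : Type} (star : I) {x y : At I} (hx : IsPQ x) (hy : IsPQ y) :
    phi star b b x y = e := by
  simp [phi, g_b_left, hx, hy]

theorem phi_e2 {I : Type} (star : I) {r s : At I} (hx : IsPQ r) (hy : IsPQ s) :
    phi star r s b b = e := by
  simp [phi, g_b_right, hx, hy]

theorem phi_gen {I : Type} (star : I) (r s x y : At I) : Gen (phi star r s x y) := by
  unfold phi
  split <;> (try split) <;> simp [Gen]

theorem phi_spec1 {I : Type} (F : I → Prop) (star : I) {r s x y : At I} (hr : r ≠ one)
    (hs : s ≠ one) (hx : x ≠ one) (hy : y ≠ one) : Ok F r x (phi star r s x y) := by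
  unfold phi
  split
  · next i j h1 h2 => exact (g_some F star h1).2.2.1
  · next i h1 h2 =>
    split
    · exact (g_some F star h1).2.2.2
    · exact (g_some F star h1).2.2.1
  · next j h1 h2 =>
    split
    · next h => rw [h.1, h.2]; exact ok_bba F j
    · next h => exact ok_l F hr hx h
  · next h1 h2 =>
    split
    · next h =>
      rcases h with h | h
      · rw [h.1]; exact ok_bxe F h.2.2.1
      · rw [h.1]; exact (ok_bxe F h.2.2.1).swap12
    · exact ok_k F star hr hx h1

theorem phi_spec2 {I : Type} (F : I → Prop) (star : I) {r s x y : At I} (hr : r ≠ one)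
    (hs : s ≠ one) (hx : x ≠ one) (hy : y ≠ one) : Ok F s y (phi star r s x y) := by
  unfold phi
  split
  · next i j h1 h2 => exact (g_some F star h2).2.2.1
  · next i h1 h2 =>
    split
    · next h => rw [h.1, h.2]; exact ok_bba F i
    · next h => exact ok_l F hs hy h
  · next j h1 h2 =>
    split
    · exact (g_some F star h2).2.2.2
    · exact (g_some F star h2).2.2.1
  · next h1 h2 =>
    split
    · next h =>
      rcases h with h | h
      · rw [h.2.1]; exact ok_bxe F h.2.2.2
      · rw [h.2.1]; exact (ok_bxe F h.2.2.2).swap12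
    · exact ok_k F star hs hy h2

theorem phi_a {I : Type} (star : I) {r s x y : At I} {j : I} (h : phi star r s x y = a j) :
    (r = b ∧ x = b ∧ g star s y = some j) ∨ (s = b ∧ y = b ∧ g star r x = some j) := by
  unfold phi at h
  split at h
  · simp at h
  · next i h1 h2 =>
    split at h
    · next h3 =>
      right
      refine ⟨h3.1, h3.2, ?_⟩
      rw [h1]; simpa using h
    · simp at h
  · next i h1 h2 =>
    split at h
    · next h3 =>
      left
      refine ⟨h3.1, h3.2, ?_⟩
      rw [h2]; simpa using h
    · simp at h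
  · split at h <;> simp at h

/-- If the forced label has a strict index then exactly one of the two labels is `c j`. -/
theorem g_strict {I : Type} {star : I} {r t : At I} {j : I} (h : g star r t = some j)
    (hj : j ≠ star) : (IsPQ r ∧ t = c j) ∨ (r = c j ∧ IsPQ t) := by
  cases r <;> cases t <;> simp_all [g, IsPQ]

/-- If both labels are `p` or `q` then a forced label is the special one. -/
theorem g_pq {I : Type} {star : I} {r t : At I} {j : I} (h : g star r t = some j)
    (h1 : IsPQ r) (h2 : IsPQ t) : j = star := by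
  cases r <;> cases t <;> simp_all [g, IsPQ]

end At

end Pool.Agent.H94.WRRA
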