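import Pool.Agent.H94.WRRA1

/-!
Networks, their one-point extensions and the saturated limit.
-/

set_option autoImplicit false

namespace Pool.Agent.H94.WRRA

open At

variable {I : Type}

/-- A network on the nodes `0, …, m - 1`. -/
structure Good (star : I) (m : ℕ) (lab : ℕ → ℕ → At I) : Prop where
  diag : ∀ x < m, lab x x = one
  offd : ∀ x < m, ∀ y < m, x ≠ y → lab x y ≠ one
  symm : ∀ x < m, ∀ y < m, lab x y = lab y x
  tri : ∀ x < m, ∀ y < m, ∀ z < m, Ok (fun i => i ≠ star) (lab x y) (lab y z) (lab x z)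
  special : ∀ x < m, ∀ y < m, ∀ u < m, ∀ v < m, u ≠ v → lab x u = b → lab x v = b →
    IsPQ (lab y u) → IsPQ (lab y v) → lab x y ≠ e → ∀ j, j ≠ star → lab u v ≠ a j

/-- Labels from the new point. -/
noncomputable def newLab (star : I) (lab : ℕ → ℕ → At I) (M N : ℕ) (r s : At I) (W : ℕ) : At I :=
  if W = M then r else if W = N then s else phi star r s (lab M W) (lab N W)

/-- The extended labelling. -/
noncomputable def extLab (star : I) (m : ℕ) (lab : ℕ → ℕ → At I) (M N : ℕ) (r s : At I)
    (x y : ℕ) : At I :=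
  if x = m then (if y = m then one else newLab star lab M N r s y)
  else if y = m then newLab star lab M N r s x else lab x y

section
variable {star : I} {m : ℕ} {lab : ℕ → ℕ → At I} {M N : ℕ} {r s : At I}

theorem newLab_M : newLab star lab M N r s M = r := by simp [newLab]

theorem newLab_N (h : N ≠ M) : newLab star lab M N r s N = s := by simp [newLab, h]

theorem newLab_other {W : ℕ} (h1 : W ≠ M) (h2 : W ≠ N) :
    newLab star lab M N r s W = phi star r s (lab M W) (lab N W) := by simp [newLab, h1, h2]

theorem newLab_gen {W : ℕ} (h1 : W ≠ M) (h2 : W ≠ N) :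
    Gen (newLab star lab M N r s W) := by
  rw [newLab_other h1 h2]; exact phi_gen _ _ _ _ _

theorem newLab_ne_one {W : ℕ} (hr : r ≠ one) (hs : s ≠ one) :
    newLab star lab M N r s W ≠ one := by
  by_cases h1 : W = M
  · subst h1; rw [newLab_M]; exact hr
  by_cases h2 : W = N
  · subst h2; rw [newLab_N h1]; exact hs
  exact (newLab_gen h1 h2).ne_one

theorem newLab_F1 (hG : Good star m lab) (hM : M < m) (hN : N < m) (hr : r ≠ one)
    (hs : s ≠ one) (h : Ok (fun i => i ≠ star) r s (lab M N)) {W : ℕ} (hW : W < m) :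
    Ok (fun i => i ≠ star) r (lab M W) (newLab star lab M N r s W) := by
  by_cases h1 : W = M
  · subst h1; rw [newLab_M, hG.diag W hM]; exact (ok_one_left _ _).swap12
  by_cases h2 : W = N
  · subst h2; rw [newLab_N h1]; exact h.swap23
  rw [newLab_other h1 h2]
  exact phi_spec1 _ _ hr hs (hG.offd M hM W hW (Ne.symm h1)) (hG.offd N hN W hW (Ne.symm h2))

theorem newLab_F2 (hG : Good star m lab) (hM : M < m) (hN : N < m) (hr : r ≠ one)
    (hs : s ≠ one) (h : Ok (fun i => i ≠ star) r s (lab M N)) {W : ℕ} (hW : W < m) :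
    Ok (fun i => i ≠ star) s (lab N W) (newLab star lab M N r s W) := by
  by_cases h1 : W = M
  · subst h1; rw [newLab_M, hG.symm N hN W hM]; exact h.swap12.swap23
  by_cases h2 : W = N
  · subst h2; rw [newLab_N h1, hG.diag W hN]; exact (ok_one_left _ _).swap12
  rw [newLab_other h1 h2]
  exact phi_spec2 _ _ hr hs (hG.offd M hM W hW (Ne.symm h1)) (hG.offd N hN W hW (Ne.symm h2))

/-- The main case of the triangle condition, with one orientation fixed. -/
theorem no_mono (hG : Good star m lab) (hM : M < m) (hN : N < m)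
    (h : Ok (fun i => i ≠ star) r s (lab M N)) {W W' : ℕ} (hW : W < m) (hW' : W' < m)
    (hWW : W ≠ W') {j : I} (hj : j ≠ star)
    (h1 : r = b ∧ lab M W = b ∧ g star s (lab N W) = some j)
    (h2 : r = b ∧ lab M W' = b ∧ g star s (lab N W') = some j) : lab W W' ≠ a j := by
  obtain ⟨hr, hMW, hg1⟩ := h1
  obtain ⟨-, hMW', hg2⟩ := h2
  rcases g_strict hg1 hj with ⟨hs, hc⟩ | ⟨hs, hc⟩
  · rcases g_strict hg2 hj with ⟨-, hc'⟩ | ⟨hs', -⟩
    · have := hG.tri W hW N hN W' hW'
      rw [hG.symm W hW N hN, hc, hc'] at this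
      exact this.not_cca hj
    · rw [hs'] at hs; exact absurd hs (by simp [IsPQ])
  · rcases g_strict hg2 hj with ⟨hs', -⟩ | ⟨-, hc'⟩
    · rw [hs] at hs'; exact absurd hs' (by simp [IsPQ])
    · have hne : lab M N ≠ e := by
        rw [hr, hs] at h
        exact h.not_bce
      exact hG.special M hM N hN W hW W' hW' hWW hMW hMW' hc hc' hne j hj

theorem newLab_F3 (hG : Good star m lab) (hM : M < m) (hN : N < m) (hr : r ≠ one)
    (hs : s ≠ one) (h : Ok (fun i => i ≠ star) r s (lab M N)) {W W' : ℕ} (hW : W < m)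
    (hW' : W' < m) : Ok (fun i => i ≠ star) (newLab star lab M N r s W) (lab W W')
      (newLab star lab M N r s W') := by
  by_cases hWW : W = W'
  · subst hWW
    rw [hG.diag W hW]
    exact (ok_one_left _ _).swap12
  by_cases h1 : W = M
  · subst h1; rw [newLab_M]; exact newLab_F1 hG hM hN hr hs h hW'
  by_cases h2 : W = N
  · subst h2; rw [newLab_N h1]; exact newLab_F2 hG hM hN hr hs h hW'
  by_cases h1' : W' = M
  · subst h1'
    rw [newLab_M, hG.symm W hW W' hM]
    exact (newLab_F1 hG hM hN hr hs h hW).swap13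
  by_cases h2' : W' = N
  · subst h2'
    rw [newLab_N h1', hG.symm W hW W' hN]
    exact (newLab_F2 hG hM hN hr hs h hW).swap13
  refine ok_gen _ (newLab_gen h1 h2) (hG.offd W hW W' hW' hWW) (newLab_gen h1' h2') ?_
  intro j hj hp hp'
  rw [newLab_other h1 h2] at hp
  rw [newLab_other h1' h2'] at hp'
  rcases phi_a star hp with hp | hp
  · rcases phi_a star hp' with hp' | hp'
    · exact no_mono hG hM hN h hW hW' hWW hj hp hp'
    · exfalso
      have := g_b_left star (lab N W)
      rw [hp'.1, this] at hp
      simp at hp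
  · rcases phi_a star hp' with hp' | hp'
    · exfalso
      have := g_b_left star (lab N W')
      rw [hp.1, this] at hp'
      simp at hp'
    · refine no_mono hG hN hM ?_ hW hW' hWW hj hp hp'
      rw [hG.symm N hN M hM]
      exact h.swap12

theorem extLab_old {x y : ℕ} (hx : x < m) (hy : y < m) :
    extLab star m lab M N r s x y = lab x y := by
  simp [extLab, hx.ne, hy.ne]

theorem extLab_mm : extLab star m lab M N r s m m = one := by
  simp [extLab]

theorem extLab_mx {x : ℕ} (hx : x < m) :
    extLab star m lab M N r s m x = newLab star lab M N r s x := by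
  simp [extLab, hx.ne]

theorem extLab_xm {x : ℕ} (hx : x < m) :
    extLab star m lab M N r s x m = newLab star lab M N r s x := by
  simp [extLab, hx.ne]

/-- nodes joined to the new one by `b` are the two attaching nodes -/
theorem newLab_b {W : ℕ} (h : newLab star lab M N r s W = b) :
    (W = M ∧ r = b) ∨ (W = N ∧ s = b) := by
  by_cases h1 : W = M
  · subst h1; rw [newLab_M] at h; exact Or.inl ⟨rfl, h⟩
  by_cases h2 : W = N
  · subst h2; rw [newLab_N h1] at h; exact Or.inr ⟨rfl, h⟩
  exact absurd h (newLab_gen h1 h2).ne_b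

theorem newLab_pq {W : ℕ} (h : IsPQ (newLab star lab M N r s W)) :
    (W = M ∧ IsPQ r) ∨ (W = N ∧ IsPQ s) := by
  by_cases h1 : W = M
  · subst h1; rw [newLab_M] at h; exact Or.inl ⟨rfl, h⟩
  by_cases h2 : W = N
  · subst h2; rw [newLab_N h1] at h; exact Or.inr ⟨rfl, h⟩
  exact absurd h (newLab_gen h1 h2).not_pq

theorem isPQ_ne_b {x : At I} (h : IsPQ x) : x ≠ b := by
  rintro rfl; exact h

theorem isPQ_ne_one {x : At I} (h : IsPQ x) : x ≠ one := by
  rintro rfl; exact h

/-- special position with the new node in the role of `u` -/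
theorem special_u (hG : Good star m lab) (hM : M < m) (hN : N < m)
    {x y v : ℕ} (hx : x < m) (hy : y < m) (hv : v < m)
    (h1 : newLab star lab M N r s x = b) (h2 : lab x v = b)
    (h3 : IsPQ (newLab star lab M N r s y)) (h4 : IsPQ (lab y v)) (j : I) (hj : j ≠ star) :
    newLab star lab M N r s v ≠ a j := by
  intro hcon
  have hvx : v ≠ x := by
    rintro rfl
    rw [hG.diag v hv] at h2; exact absurd h2 (by simp)
  have hvy : v ≠ y := by
    rintro rfl
    exact isPQ_ne_one h4 (hG.diag v hv)
  rcases newLab_b h1 with ⟨rfl, hr⟩ | ⟨rfl, hs⟩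
  · rcases newLab_pq h3 with ⟨rfl, hr'⟩ | ⟨rfl, hs'⟩
    · exact isPQ_ne_b hr' hr
    · rw [newLab_other hvx hvy] at hcon
      rcases phi_a star hcon with h | h
      · exact hj (g_pq h.2.2 hs' h4)
      · exact isPQ_ne_b hs' h.1
  · rcases newLab_pq h3 with ⟨rfl, hr'⟩ | ⟨rfl, hs'⟩
    · rw [newLab_other hvy hvx] at hcon
      rcases phi_a star hcon with h | h
      · exact isPQ_ne_b hr' h.1
      · exact hj (g_pq h.2.2 hr' h4)
    · exact isPQ_ne_b hs' hs

theorem good_ext (hG : Good star m lab) (hM : M < m) (hN : N < m) (hr : r ≠ one)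
    (hs : s ≠ one) (h : Ok (fun i => i ≠ star) r s (lab M N)) :
    Good star (m + 1) (extLab star m lab M N r s) := by
  have hlt : ∀ x, x < m + 1 → x = m ∨ x < m := fun x hx => by omega
  refine ⟨?_, ?_, ?_, ?_, ?_⟩
  · intro x hx
    rcases hlt x hx with rfl | hx
    · exact extLab_mm
    · rw [extLab_old hx hx]; exact hG.diag x hx
  · intro x hx y hy hxy
    rcases hlt x hx with rfl | hx <;> rcases hlt y hy with rfl | hy
    · exact absurd rfl hxy
    · rw [extLab_mx hy]; exact newLab_ne_one hr hs
    · rw [extLab_xm hx]; exact newLab_ne_one hr hs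
    · rw [extLab_old hx hy]; exact hG.offd x hx y hy hxy
  · intro x hx y hy
    rcases hlt x hx with rfl | hx <;> rcases hlt y hy with rfl | hy
    · rfl
    · rw [extLab_mx hy, extLab_xm hy]
    · rw [extLab_xm hx, extLab_mx hx]
    · rw [extLab_old hx hy, extLab_old hy hx]; exact hG.symm x hx y hy
  · intro x hx y hy z hz
    rcases hlt x hx with rfl | hx <;> rcases hlt y hy with rfl | hy <;>
      rcases hlt z hz with rfl | hz
    · rw [extLab_mm]; exact ok_one_left _ _
    · rw [extLab_mm]; exact ok_one_left _ _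
    · rw [extLab_mx hy, extLab_xm hy, extLab_mm]
      exact ((ok_one_left _ _).swap13).swap12
    · rw [extLab_mx hy, extLab_old hy hz, extLab_mx hz]
      exact newLab_F3 hG hM hN hr hs h hy hz
    · rw [extLab_mm]
      exact ((ok_one_left _ _).swap12)
    · rw [extLab_xm hx, extLab_mx hz, extLab_old hx hz]
      exact (newLab_F3 hG hM hN hr hs h hx hz).swap23
    · rw [extLab_old hx hy, extLab_xm hy, extLab_xm hx]
      have := newLab_F3 hG hM hN hr hs h hy hx
      rw [hG.symm y hy x hx] at this
      exact this.swap12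
    · rw [extLab_old hx hy, extLab_old hy hz, extLab_old hx hz]; exact hG.tri x hx y hy z hz
  · intro x hx y hy u hu v hv huv h1 h2 h3 h4 h5 j hj
    rcases hlt u hu with rfl | hu
    · rcases hlt v hv with rfl | hv
      · exact absurd rfl huv
      rcases hlt x hx with rfl | hx
      · rw [extLab_mm] at h1; exact absurd h1 (by simp)
      rcases hlt y hy with rfl | hy
      · rw [extLab_mm] at h3; exact absurd h3 (by simp [IsPQ])
      rw [extLab_xm hx] at h1
      rw [extLab_old hx hv] at h2
      rw [extLab_xm hy] at h3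
      rw [extLab_old hy hv] at h4
      rw [extLab_mx hv]
      exact special_u hG hM hN hx hy hv h1 h2 h3 h4 j hj
    rcases hlt v hv with rfl | hv
    · rcases hlt x hx with rfl | hx
      · rw [extLab_mm] at h2; exact absurd h2 (by simp)
      rcases hlt y hy with rfl | hy
      · rw [extLab_mm] at h4; exact absurd h4 (by simp [IsPQ])
      rw [extLab_old hx hu] at h1
      rw [extLab_xm hx] at h2
      rw [extLab_old hy hu] at h3
      rw [extLab_xm hy] at h4
      rw [extLab_xm hu]
      exact special_u hG hM hN hx hy hu h2 h1 h4 h3 j hj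
    rw [extLab_old hu hv]
    rcases hlt x hx with rfl | hx
    · rcases hlt y hy with rfl | hy
      · rw [h1] at h3; exact absurd h3 (by simp [IsPQ])
      rw [extLab_mx hu] at h1
      rw [extLab_mx hv] at h2
      rw [extLab_old hy hu] at h3
      rw [extLab_old hy hv] at h4
      rw [extLab_mx hy] at h5
      have hyu : y ≠ u := by
        rintro rfl; exact isPQ_ne_one h3 (hG.diag y hy)
      have hyv : y ≠ v := by
        rintro rfl; exact isPQ_ne_one h4 (hG.diag y hy)
      exfalso
      apply h5
      rcases newLab_b h1 with ⟨rfl, hr'⟩ | ⟨rfl, hs'⟩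
      · rcases newLab_b h2 with ⟨rfl, -⟩ | ⟨rfl, hs''⟩
        · exact absurd rfl huv
        · rw [newLab_other hyu hyv, hr', hs'', hG.symm _ hu _ hy, hG.symm _ hv _ hy]
          exact phi_e1 star h3 h4
      · rcases newLab_b h2 with ⟨rfl, hr'⟩ | ⟨rfl, -⟩
        · rw [newLab_other hyv hyu, hr', hs', hG.symm _ hu _ hy, hG.symm _ hv _ hy]
          exact phi_e1 star h4 h3
        · exact absurd rfl huv
    · rcases hlt y hy with rfl | hy
      · rw [extLab_old hx hu] at h1
        rw [extLab_old hx hv] at h2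
        rw [extLab_mx hu] at h3
        rw [extLab_mx hv] at h4
        rw [extLab_xm hx] at h5
        have hxu : x ≠ u := by
          rintro rfl; rw [hG.diag x hx] at h1; exact absurd h1 (by simp)
        have hxv : x ≠ v := by
          rintro rfl; rw [hG.diag x hx] at h2; exact absurd h2 (by simp)
        exfalso
        apply h5
        rcases newLab_pq h3 with ⟨rfl, hr'⟩ | ⟨rfl, hs'⟩
        · rcases newLab_pq h4 with ⟨rfl, -⟩ | ⟨rfl, hs''⟩
          · exact absurd rfl huv
          · rw [newLab_other hxu hxv, hG.symm _ hu _ hx, hG.symm _ hv _ hx, h1, h2]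
            exact phi_e2 star hr' hs''
        · rcases newLab_pq h4 with ⟨rfl, hr'⟩ | ⟨rfl, -⟩
          · rw [newLab_other hxv hxu, hG.symm _ hu _ hx, hG.symm _ hv _ hx, h1, h2]
            exact phi_e2 star hr' hs'
          · exact absurd rfl huv
      · rw [extLab_old hx hu] at h1
        rw [extLab_old hx hv] at h2
        rw [extLab_old hy hu] at h3
        rw [extLab_old hy hv] at h4
        rw [extLab_old hx hy] at h5
        exact hG.special x hx y hy u hu v hv huv h1 h2 h3 h4 h5 j hj

end

end Pool.Agent.H94.WRRA
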