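import Pool.Agent.H94.WRRA2

/-!
The saturated network.
-/

set_option autoImplicit false

namespace Pool.Agent.H94.WRRA

open At

variable {I : Type}

/-- initial network with one node -/
theorem good_one (star : I) : Good star 1 (fun _ _ => (one : At I)) := by
  refine ⟨fun _ _ => rfl, ?_, fun _ _ _ _ => rfl, fun _ _ _ _ _ _ => ok_one_left _ _, ?_⟩
  · intro x hx y hy hxy
    omega
  · intro x hx y hy u hu v hv huv
    omega

/-- One step: perform the task `(M, N, r, s)` if it makes sense. -/
theorem step (star : I) (m : ℕ) (hm : 0 < m) (lab : ℕ → ℕ → At I) (hG : Good star m lab)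
    (M N : ℕ) (r s : At I) :
    ∃ lab' : ℕ → ℕ → At I, Good star (m + 1) lab' ∧
      (∀ x < m, ∀ y < m, lab' x y = lab x y) ∧
      (M < m → N < m → r ≠ one → s ≠ one → Ok (fun i => i ≠ star) r s (lab M N) →
        lab' M m = r ∧ lab' m N = s) := by
  by_cases h : M < m ∧ N < m ∧ r ≠ one ∧ s ≠ one ∧ Ok (fun i => i ≠ star) r s (lab M N)
  · obtain ⟨hM, hN, hr, hs, hok⟩ := h
    refine ⟨extLab star m lab M N r s, good_ext hG hM hN hr hs hok, ?_, ?_⟩
    · intro x hx y hy; exact extLab_old hx hy
    · intro _ _ _ _ _
      rw [extLab_xm hM, extLab_mx hN, newLab_M]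
      refine ⟨rfl, ?_⟩
      by_cases hMN : N = M
      · subst hMN
        rw [newLab_M]
        rw [hG.diag N hN] at hok
        exact hok.eq_of_one
      · exact newLab_N hMN
  · refine ⟨extLab star m lab 0 0 k k, good_ext hG hm hm (by simp) (by simp) ?_, ?_, ?_⟩
    · rw [hG.diag 0 hm]
      exact (ok_one_left _ _).swap13
    · intro x hx y hy; exact extLab_old hx hy
    · intro h1 h2 h3 h4 h5
      exact absurd ⟨h1, h2, h3, h4, h5⟩ h

/-- A saturated network on the natural numbers. -/
theorem exists_saturated [Countable I] (star : I) :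
    ∃ lab : ℕ → ℕ → At I,
      (∀ x, lab x x = one) ∧ (∀ x y, x ≠ y → lab x y ≠ one) ∧ (∀ x y, lab x y = lab y x) ∧
      (∀ x y z, Ok (fun i => i ≠ star) (lab x y) (lab y z) (lab x z)) ∧
      (∀ x y r s, r ≠ one → s ≠ one → Ok (fun i => i ≠ star) r s (lab x y) →
        ∃ z, lab x z = r ∧ lab z y = s) := by
  classical
  have hcount : Countable (At I) := by
    have : Function.Injective (fun t : At I => (match t with
      | one => Sum.inl 0
      | k => Sum.inl 1
      | l => Sum.inl 2
      | b => Sum.inl 3
      | e => Sum.inl 4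
      | p => Sum.inl 5
      | q => Sum.inl 6
      | c i => Sum.inr (true, i)
      | a i => Sum.inr (false, i) : ℕ ⊕ (Bool × I))) := by
      intro t t' h
      cases t <;> cases t' <;> simp_all
    exact this.countable
  have : Nonempty (At I) := ⟨one⟩
  obtain ⟨f, hf⟩ := exists_surjective_nat (ℕ × ℕ × At I × At I)
  let Stage : ℕ → Type := fun n => {lab : ℕ → ℕ → At I // Good star (n + 1) lab}
  let task : ℕ → ℕ × ℕ × At I × At I := fun n => f (Nat.unpair n).1
  have hstep : ∀ n (L : Stage n), ∃ L' : Stage (n + 1),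
      (∀ x < n + 1, ∀ y < n + 1, L'.1 x y = L.1 x y) ∧
      ((task n).1 < n + 1 → (task n).2.1 < n + 1 → (task n).2.2.1 ≠ one →
        (task n).2.2.2 ≠ one →
        Ok (fun i => i ≠ star) (task n).2.2.1 (task n).2.2.2 (L.1 (task n).1 (task n).2.1) →
        L'.1 (task n).1 (n + 1) = (task n).2.2.1 ∧
          L'.1 (n + 1) (task n).2.1 = (task n).2.2.2) := by
    intro n L
    obtain ⟨lab', h1, h2, h3⟩ := step star (n + 1) (Nat.succ_pos n) L.1 L.2 (task n).1
      (task n).2.1 (task n).2.2.1 (task n).2.2.2
    exact ⟨⟨lab', h1⟩, h2, h3⟩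
  choose next hnext1 hnext2 using hstep
  let L : ∀ n, Stage n := fun n => Nat.rec ⟨fun _ _ => one, good_one star⟩ next n
  have hL : ∀ n, L (n + 1) = next n (L n) := fun n => rfl
  have hagree : ∀ n k, ∀ x < n + 1, ∀ y < n + 1, (L (n + k)).1 x y = (L n).1 x y := by
    intro n k
    induction k with
    | zero => intro x _ y _; rfl
    | succ k ih =>
      intro x hx y hy
      have h1 := hnext1 (n + k) (L (n + k)) x (by omega) y (by omega)
      have h2 : (L (n + (k + 1))).1 x y = (L (n + k)).1 x y := h1
      rw [h2, ih x hx y hy]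
  let lab : ℕ → ℕ → At I := fun x y => (L (max x y)).1 x y
  have hlab : ∀ n x y, x < n + 1 → y < n + 1 → (L n).1 x y = lab x y := by
    intro n x y hx hy
    obtain ⟨k, hk⟩ : ∃ k, n = max x y + k := ⟨n - max x y, by omega⟩
    have := hagree (max x y) k x (by omega) y (by omega)
    rw [← hk] at this
    exact this
  refine ⟨lab, ?_, ?_, ?_, ?_, ?_⟩
  · intro x
    have := (L x).2.diag x (by omega)
    rwa [hlab x x x (by omega) (by omega)] at this
  · intro x y hxy
    have := (L (max x y)).2.offd x (by omega) y (by omega) hxy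
    rwa [hlab _ x y (by omega) (by omega)] at this
  · intro x y
    have := (L (max x y)).2.symm x (by omega) y (by omega)
    rwa [hlab _ x y (by omega) (by omega), hlab _ y x (by omega) (by omega)] at this
  · intro x y z
    have := (L (max x (max y z))).2.tri x (by omega) y (by omega) z (by omega)
    rwa [hlab _ x y (by omega) (by omega), hlab _ y z (by omega) (by omega),
      hlab _ x z (by omega) (by omega)] at this
  · intro x y r s hr hs hok
    obtain ⟨t, ht⟩ := hf (x, y, r, s)
    set n := Nat.pair t (max x y) with hn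
    have hge : max x y ≤ n := Nat.right_le_pair _ _
    have htask : task n = (x, y, r, s) := by
      simp only [task, hn, Nat.unpair_pair]
      exact ht
    have h2 := hnext2 n (L n)
    rw [htask] at h2
    have h3 := h2 (by simp only []; omega) (by simp only []; omega) hr hs
      (by
        simp only []
        rw [hlab n x y (by omega) (by omega)]
        exact hok)
    rw [← hL n] at h3
    refine ⟨n + 1, ?_, ?_⟩
    · rw [← hlab (n + 1) x (n + 1) (by omega) (by omega)]; exact h3.1
    · rw [← hlab (n + 1) (n + 1) y (by omega) (by omega)]; exact h3.2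

end Pool.Agent.H94.WRRA
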