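import Pool.Agent.H94.WRRA3

/-!
The algebra, its automorphism-fixed subalgebras and their representations.
-/

set_option autoImplicit false

namespace Pool.Agent.H94.WRRA

open At

/-- Composition of the complex algebra. -/
def comp {I : Type} (x y : Set (At I)) : Set (At I) :=
  {t | ∃ r ∈ x, ∃ s ∈ y, Ok (fun _ => True) r s t}

/-- Elements fixed by the transposition of `i0` and `i1`. -/
def Inv {I : Type} (i0 i1 : I) (x : Set (At I)) : Prop :=
  (c i0 ∈ x ↔ c i1 ∈ x) ∧ (a i0 ∈ x ↔ a i1 ∈ x)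

section Auto

variable {I : Type}

/-- action of a map of indices -/
def amap (σ : I → I) : At I → At I
  | one => one
  | k => k
  | l => l
  | b => b
  | e => e
  | p => p
  | q => q
  | c i => c (σ i)
  | a i => a (σ i)

theorem B0_amap {σ : I → I} (hσ : Function.Injective σ) {r s t : At I}
    (h : B0 (fun _ => True) (amap σ r) (amap σ s) (amap σ t)) :
    B0 (fun _ => True) r s t := by
  cases r <;> cases s <;> cases t <;> simp_all [B0, amap, hσ.eq_iff]
  · exact h.1.symm.trans h.2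
  · exact h.1.symm.trans h.2

theorem amap_one {σ : I → I} {r : At I} : amap σ r = one ↔ r = one := by
  cases r <;> simp [amap]

theorem ok_amap {σ : I → I} (hσ : Function.Injective σ) {r s t : At I}
    (h : Ok (fun _ => True) r s t) :
    Ok (fun _ => True) (amap σ r) (amap σ s) (amap σ t) := by
  rcases h with ⟨h1, h2⟩ | ⟨h1, h2⟩ | ⟨h1, h2⟩ | ⟨h1, h2, h3, h4, h5, h6, h7, h8, h9⟩
  · subst h1; subst h2; exact ok_one_left _ _
  · subst h1; subst h2; exact (ok_one_left _ _).swap12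
  · subst h1; subst h2; exact (ok_one_left _ _).swap13
  · refine Or.inr (Or.inr (Or.inr ⟨?_, ?_, ?_, ?_, ?_, ?_, ?_, ?_, ?_⟩))
    · rwa [Ne, amap_one]
    · rwa [Ne, amap_one]
    · rwa [Ne, amap_one]
    · exact fun h => h4 (B0_amap hσ h)
    · exact fun h => h5 (B0_amap hσ h)
    · exact fun h => h6 (B0_amap hσ h)
    · exact fun h => h7 (B0_amap hσ h)
    · exact fun h => h8 (B0_amap hσ h)
    · exact fun h => h9 (B0_amap hσ h)

variable [DecidableEq I]

theorem inv_iff {i0 i1 : I} {x : Set (At I)} (hx : Inv i0 i1 x) (t : At I) :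
    amap (Equiv.swap i0 i1) t ∈ x ↔ t ∈ x := by
  cases t with
  | c i =>
    simp only [amap]
    by_cases h0 : i = i0
    · subst h0; simp [hx.1]
    by_cases h1 : i = i1
    · subst h1; simp [hx.1]
    rw [Equiv.swap_apply_of_ne_of_ne h0 h1]
  | a i =>
    simp only [amap]
    by_cases h0 : i = i0
    · subst h0; simp [hx.2]
    by_cases h1 : i = i1
    · subst h1; simp [hx.2]
    rw [Equiv.swap_apply_of_ne_of_ne h0 h1]
  | _ => simp [amap]

theorem inv_of_imp {i0 i1 : I} {x : Set (At I)}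
    (h : ∀ t, t ∈ x → amap (Equiv.swap i0 i1) t ∈ x) : Inv i0 i1 x := by
  refine ⟨⟨fun h1 => ?_, fun h1 => ?_⟩, ⟨fun h1 => ?_, fun h1 => ?_⟩⟩
  · simpa [amap] using h _ h1
  · simpa [amap] using h _ h1
  · simpa [amap] using h _ h1
  · simpa [amap] using h _ h1

theorem inv_comp {i0 i1 : I} {x y : Set (At I)} (hx : Inv i0 i1 x) (hy : Inv i0 i1 y) :
    Inv i0 i1 (comp x y) := by
  apply inv_of_imp
  rintro t ⟨r, hr, s, hs, hok⟩
  exact ⟨_, (inv_iff hx r).2 hr, _, (inv_iff hy s).2 hs,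
    ok_amap (Equiv.swap i0 i1).injective hok⟩

omit [DecidableEq I] in
theorem inv_union {i0 i1 : I} {x y : Set (At I)} (hx : Inv i0 i1 x) (hy : Inv i0 i1 y) :
    Inv i0 i1 (x ∪ y) := by
  simp only [Inv, Set.mem_union, hx.1, hy.1, hx.2, hy.2] at *
  tauto

omit [DecidableEq I] in
theorem inv_compl {i0 i1 : I} {x : Set (At I)} (hx : Inv i0 i1 x) :
    Inv i0 i1 xᶜ := by
  simp only [Inv, Set.mem_compl_iff, hx.1, hx.2] at *
  tauto

omit [DecidableEq I] in
theorem inv_one (i0 i1 : I) : Inv i0 i1 {one} := by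
  simp [Inv]

end Auto

section Collapse

variable {I : Type} [DecidableEq I] {i0 i1 : I}

/-- collapse `i1` to `i0` -/
def col (h01 : i0 ≠ i1) (i : I) : {i : I // i ≠ i1} :=
  if h : i = i1 then ⟨i0, h01⟩ else ⟨i, h⟩

/-- collapse of atoms -/
def kap (h01 : i0 ≠ i1) : At I → At {i : I // i ≠ i1}
  | one => one
  | k => k
  | l => l
  | b => b
  | e => e
  | p => p
  | q => q
  | c i => c (col h01 i)
  | a i => a (col h01 i)

/-- the section of the collapse -/
def emb : At {i : I // i ≠ i1} → At I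
  | one => one
  | k => k
  | l => l
  | b => b
  | e => e
  | p => p
  | q => q
  | c i => c i.1
  | a i => a i.1

theorem col_val (h01 : i0 ≠ i1) (i : {i : I // i ≠ i1}) : col h01 i.1 = i := by
  simp [col, i.2]

theorem kap_emb (h01 : i0 ≠ i1) (t : At {i : I // i ≠ i1}) : kap h01 (emb t) = t := by
  cases t <;> simp [kap, emb, col_val]

theorem emb_kap_mem (h01 : i0 ≠ i1) {x : Set (At I)} (hx : Inv i0 i1 x) (t : At I) :
    emb (kap h01 t) ∈ x ↔ t ∈ x := by
  cases t with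
  | c i =>
    by_cases h : i = i1
    · subst h; simp [kap, emb, col, hx.1]
    · simp [kap, emb, col, h]
  | a i =>
    by_cases h : i = i1
    · subst h; simp [kap, emb, col, hx.2]
    · simp [kap, emb, col, h]
  | _ => simp [kap, emb]

theorem col_inj (h01 : i0 ≠ i1) {i j : I} (h : col h01 i ≠ ⟨i0, h01⟩) (hij : col h01 i = col h01 j) :
    i = j := by
  unfold col at *
  split_ifs at * <;> simp_all

theorem kap_one (h01 : i0 ≠ i1) {t : At I} : kap h01 t = one ↔ t = one := by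
  cases t <;> simp [kap]

theorem B0_kap (h01 : i0 ≠ i1) {r s t : At I}
    (h : B0 (fun i => i ≠ ⟨i0, h01⟩) (kap h01 r) (kap h01 s) (kap h01 t)) :
    B0 (fun _ => True) r s t := by
  cases r <;> cases s <;> cases t <;> simp_all [B0, kap]
  · intro hcon
    exact h (by rw [hcon])
  · intro hcon
    exact h (by rw [hcon])
  · obtain ⟨h1, h2, h3⟩ := h
    exact ⟨col_inj h01 h1 h2, col_inj h01 h1 h3⟩
  · obtain ⟨h1, h2, h3⟩ := h
    exact ⟨col_inj h01 h1 h2, col_inj h01 h1 h3⟩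

theorem ok_kap (h01 : i0 ≠ i1) {r s t : At I} (h : Ok (fun _ => True) r s t) :
    Ok (fun i => i ≠ ⟨i0, h01⟩) (kap h01 r) (kap h01 s) (kap h01 t) := by
  rcases h with ⟨h1, h2⟩ | ⟨h1, h2⟩ | ⟨h1, h2⟩ | ⟨h1, h2, h3, h4, h5, h6, h7, h8, h9⟩
  · subst h1; subst h2; exact ok_one_left _ _
  · subst h1; subst h2; exact (ok_one_left _ _).swap12
  · subst h1; subst h2; exact (ok_one_left _ _).swap13
  · refine Or.inr (Or.inr (Or.inr ⟨?_, ?_, ?_, ?_, ?_, ?_, ?_, ?_, ?_⟩))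
    · rwa [Ne, kap_one]
    · rwa [Ne, kap_one]
    · rwa [Ne, kap_one]
    · exact fun h => h4 (B0_kap h01 h)
    · exact fun h => h5 (B0_kap h01 h)
    · exact fun h => h6 (B0_kap h01 h)
    · exact fun h => h7 (B0_kap h01 h)
    · exact fun h => h8 (B0_kap h01 h)
    · exact fun h => h9 (B0_kap h01 h)

theorem B0_emb (h01 : i0 ≠ i1) {r s t : At {i : I // i ≠ i1}}
    (h : B0 (fun _ => True) (emb r) (emb s) (emb t)) :
    B0 (fun i => i ≠ ⟨i0, h01⟩) r s t ∨
      (r = c ⟨i0, h01⟩ ∧ s = c ⟨i0, h01⟩ ∧ t = a ⟨i0, h01⟩) ∨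
      (r = a ⟨i0, h01⟩ ∧ s = a ⟨i0, h01⟩ ∧ t = a ⟨i0, h01⟩) := by
  cases r <;> cases s <;> cases t <;> simp_all [B0, emb]
  · rename_i i j k
    exact fun hcon => h (by rw [hcon])
  · rename_i i j k
    exact fun hcon => h (by rw [hcon])
  · rename_i i j k
    have h1 := Subtype.ext h.1
    have h2 := Subtype.ext h.2
    subst h1; subst h2
    tauto
  · rename_i i j k
    have h1 := Subtype.ext h.1
    have h2 := Subtype.ext h.2
    subst h1; subst h2
    tauto

omit [DecidableEq I] in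
theorem emb_one {t : At {i : I // i ≠ i1}} : emb t = one ↔ t = one := by
  cases t <;> simp [emb]

theorem kap_c1 (h01 : i0 ≠ i1) : kap h01 (a i1) = a ⟨i0, h01⟩ := by
  simp [kap, col]

theorem kap_a0 (h01 : i0 ≠ i1) : kap h01 (a i0) = a ⟨i0, h01⟩ := by
  simp [kap, col, h01]

theorem kap_c0 (h01 : i0 ≠ i1) : kap h01 (c i0) = c ⟨i0, h01⟩ := by
  simp [kap, col, h01]

/-- Triangles allowed in the collapsed sense lift to allowed triangles. -/
theorem lift_ok (h01 : i0 ≠ i1) {r s t : At {i : I // i ≠ i1}}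
    (h : Ok (fun i => i ≠ ⟨i0, h01⟩) r s t) :
    ∃ r' s' t', kap h01 r' = r ∧ kap h01 s' = s ∧ kap h01 t' = t ∧
      Ok (fun _ => True) r' s' t' := by
  by_cases hsp : (r = c ⟨i0, h01⟩ ∧ s = c ⟨i0, h01⟩ ∧ t = a ⟨i0, h01⟩) ∨
      (r = c ⟨i0, h01⟩ ∧ s = a ⟨i0, h01⟩ ∧ t = c ⟨i0, h01⟩) ∨
      (r = a ⟨i0, h01⟩ ∧ s = c ⟨i0, h01⟩ ∧ t = c ⟨i0, h01⟩) ∨
      (r = a ⟨i0, h01⟩ ∧ s = a ⟨i0, h01⟩ ∧ t = a ⟨i0, h01⟩)
  · rcases hsp with ⟨h1, h2, h3⟩ | ⟨h1, h2, h3⟩ | ⟨h1, h2, h3⟩ | ⟨h1, h2, h3⟩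
    · refine ⟨c i0, c i0, a i1, ?_, ?_, ?_, ?_⟩
      · rw [kap_c0, h1]
      · rw [kap_c0, h2]
      · rw [kap_c1, h3]
      · simp [Ok, B0, h01]
    · refine ⟨c i0, a i1, c i0, ?_, ?_, ?_, ?_⟩
      · rw [kap_c0, h1]
      · rw [kap_c1, h2]
      · rw [kap_c0, h3]
      · simp [Ok, B0, h01]
    · refine ⟨a i1, c i0, c i0, ?_, ?_, ?_, ?_⟩
      · rw [kap_c1, h1]
      · rw [kap_c0, h2]
      · rw [kap_c0, h3]
      · simp [Ok, B0, h01]
    · refine ⟨a i0, a i0, a i1, ?_, ?_, ?_, ?_⟩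
      · rw [kap_a0, h1]
      · rw [kap_a0, h2]
      · rw [kap_c1, h3]
      · simp [Ok, B0, h01, h01.symm]
  · refine ⟨emb r, emb s, emb t, kap_emb _ _, kap_emb _ _, kap_emb _ _, ?_⟩
    rcases h with ⟨h1, h2⟩ | ⟨h1, h2⟩ | ⟨h1, h2⟩ | ⟨h1, h2, h3, h4, h5, h6, h7, h8, h9⟩
    · subst h1; subst h2; exact ok_one_left _ _
    · subst h1; subst h2; exact (ok_one_left _ _).swap12
    · subst h1; subst h2; exact (ok_one_left _ _).swap13
    · refine Or.inr (Or.inr (Or.inr ⟨?_, ?_, ?_, ?_, ?_, ?_, ?_, ?_, ?_⟩))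
      · rwa [Ne, emb_one]
      · rwa [Ne, emb_one]
      · rwa [Ne, emb_one]
      · intro hB
        rcases B0_emb h01 hB with h | h | h
        · exact h4 h
        · exact hsp (Or.inl ⟨h.1, h.2.1, h.2.2⟩)
        · exact hsp (Or.inr (Or.inr (Or.inr ⟨h.1, h.2.1, h.2.2⟩)))
      · intro hB
        rcases B0_emb h01 hB with h | h | h
        · exact h5 h
        · exact hsp (Or.inr (Or.inl ⟨h.1, h.2.2, h.2.1⟩))
        · exact hsp (Or.inr (Or.inr (Or.inr ⟨h.1, h.2.2, h.2.1⟩)))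
      · intro hB
        rcases B0_emb h01 hB with h | h | h
        · exact h6 h
        · exact hsp (Or.inl ⟨h.2.1, h.1, h.2.2⟩)
        · exact hsp (Or.inr (Or.inr (Or.inr ⟨h.2.1, h.1, h.2.2⟩)))
      · intro hB
        rcases B0_emb h01 hB with h | h | h
        · exact h7 h
        · exact hsp (Or.inr (Or.inr (Or.inl ⟨h.2.2, h.1, h.2.1⟩)))
        · exact hsp (Or.inr (Or.inr (Or.inr ⟨h.2.2, h.1, h.2.1⟩)))
      · intro hB
        rcases B0_emb h01 hB with h | h | h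
        · exact h8 h
        · exact hsp (Or.inr (Or.inl ⟨h.2.1, h.2.2, h.1⟩))
        · exact hsp (Or.inr (Or.inr (Or.inr ⟨h.2.1, h.2.2, h.1⟩)))
      · intro hB
        rcases B0_emb h01 hB with h | h | h
        · exact h9 h
        · exact hsp (Or.inr (Or.inr (Or.inl ⟨h.2.2, h.2.1, h.1⟩)))
        · exact hsp (Or.inr (Or.inr (Or.inr ⟨h.2.2, h.2.1, h.1⟩)))

end Collapse

section Rep

variable {I : Type} [DecidableEq I] [Countable I] {i0 i1 : I}

/-- The subalgebra of elements fixed by a transposition is representable, by labelling the pairs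
of natural numbers with atoms. -/
theorem exists_lab (h01 : i0 ≠ i1) :
    ∃ f : ℕ → ℕ → At I,
      Set.InjOn (fun x : Set (At I) => {p : ℕ × ℕ | f p.1 p.2 ∈ x}) {x | Inv i0 i1 x} ∧
      {p : ℕ × ℕ | f p.1 p.2 ∈ (∅ : Set (At I))} = ∅ ∧
      {p : ℕ × ℕ | f p.1 p.2 ∈ ({one} : Set (At I))} = {p : ℕ × ℕ | p.1 = p.2} ∧
      (∀ x y : Set (At I), {p : ℕ × ℕ | f p.1 p.2 ∈ x ∩ y} =
        {p : ℕ × ℕ | f p.1 p.2 ∈ x} ∩ {p : ℕ × ℕ | f p.1 p.2 ∈ y}) ∧
      (∀ x : Set (At I), {p : ℕ × ℕ | f p.1 p.2 ∈ x} =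
        {p : ℕ × ℕ | (p.2, p.1) ∈ {p : ℕ × ℕ | f p.1 p.2 ∈ x}}) ∧
      (∀ x y, Inv i0 i1 x → Inv i0 i1 y →
        {p : ℕ × ℕ | f p.1 p.2 ∈ comp x y} =
          {p : ℕ × ℕ | ∃ w : ℕ, (p.1, w) ∈ {p : ℕ × ℕ | f p.1 p.2 ∈ x} ∧
            (w, p.2) ∈ {p : ℕ × ℕ | f p.1 p.2 ∈ y}}) := by
  obtain ⟨lab, hdiag, hoff, hsymm, htri, hsat⟩ :=
    exists_saturated (I := {i : I // i ≠ i1}) ⟨i0, h01⟩
  refine ⟨fun x y => emb (lab x y), ?_, ?_, ?_, ?_, ?_, ?_⟩
  · -- injectivity: every atom is realised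
    intro x hx y hy hxy
    have hreal : ∀ t : At I, ∃ M N, lab M N = kap h01 t := by
      intro t
      by_cases ht : t = one
      · subst ht
        exact ⟨0, 0, hdiag 0⟩
      · have ht' : kap h01 t ≠ one := by rwa [Ne, kap_one]
        obtain ⟨z, hz, -⟩ := hsat 0 0 (kap h01 t) (kap h01 t) ht' ht' (by
          rw [hdiag 0]; exact (ok_one_left _ _).swap13)
        exact ⟨0, z, hz⟩
    ext t
    obtain ⟨M, N, hMN⟩ := hreal t
    have := Set.ext_iff.1 hxy (M, N)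
    simp only [Set.mem_ofPred_eq, hMN] at this
    rw [emb_kap_mem h01 hx, emb_kap_mem h01 hy] at this
    exact this
  · ext p; simp
  · ext ⟨M, N⟩
    simp only [Set.mem_ofPred_eq, Set.mem_singleton_iff]
    rw [emb_one]
    constructor
    · intro h
      by_contra hne
      exact hoff M N hne h
    · rintro rfl; exact hdiag M
  · intro x y; rfl
  · intro x
    ext ⟨M, N⟩
    simp only [Set.mem_ofPred_eq]
    rw [hsymm M N]
  · intro x y hx hy
    ext ⟨M, N⟩
    simp only [Set.mem_ofPred_eq]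
    constructor
    · rintro ⟨r, hr, s, hs, hok⟩
      have hok' := ok_kap h01 hok
      rw [kap_emb] at hok'
      by_cases hr1 : r = one
      · subst hr1
        refine ⟨M, ?_, ?_⟩
        · rw [hdiag M]; exact hr
        · rcases hok with ⟨-, h2⟩ | ⟨h1, h2⟩ | ⟨h1, h2⟩ | h
          · rw [← h2]; exact hs
          · rw [← h2, ← h1]; exact hs
          · rw [h1, h2]; exact hs
          · exact absurd rfl h.1
      by_cases hs1 : s = one
      · subst hs1
        refine ⟨N, ?_, ?_⟩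
        · rcases hok with ⟨h1, h2⟩ | ⟨-, h2⟩ | ⟨h1, h2⟩ | h
          · exact absurd h1 hr1
          · rw [← h2]; exact hr
          · exact absurd h2 hr1
          · exact absurd rfl h.2.1
        · rw [hdiag N]; exact hs
      obtain ⟨z, hz1, hz2⟩ := hsat M N (kap h01 r) (kap h01 s) (by rwa [Ne, kap_one])
        (by rwa [Ne, kap_one]) hok'
      refine ⟨z, ?_, ?_⟩
      · rw [hz1, emb_kap_mem h01 hx]; exact hr
      · rw [hz2, emb_kap_mem h01 hy]; exact hs
    · rintro ⟨z, hz1, hz2⟩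
      obtain ⟨r, s, t, hr, hs, ht, hok⟩ := lift_ok h01 (htri M z N)
      rw [← ht, emb_kap_mem h01 (inv_comp hx hy)]
      rw [← hr, emb_kap_mem h01 hx] at hz1
      rw [← hs, emb_kap_mem h01 hy] at hz2
      exact ⟨r, hz1, s, hz2, hok⟩

/-- The subalgebra of elements fixed by a transposition is representable. -/
theorem exists_rep (h01 : i0 ≠ i1) :
    ∃ h : Set (At I) → Set (ℕ × ℕ),
      Set.InjOn h {x | Inv i0 i1 x} ∧ h ∅ = ∅ ∧ h {one} = {p : ℕ × ℕ | p.1 = p.2} ∧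
      (∀ x y, h (x ∩ y) = h x ∩ h y) ∧
      (∀ x, h x = {p : ℕ × ℕ | (p.2, p.1) ∈ h x}) ∧
      (∀ x y, Inv i0 i1 x → Inv i0 i1 y →
        h (comp x y) = {p : ℕ × ℕ | ∃ w : ℕ, (p.1, w) ∈ h x ∧ (w, p.2) ∈ h y}) := by
  obtain ⟨f, h1, h2, h3, h4, h5, h6⟩ := exists_lab h01
  exact ⟨fun x => {p : ℕ × ℕ | f p.1 p.2 ∈ x}, h1, h2, h3, h4, h5, h6⟩

end Rep

section NotRep

variable {I : Type}

theorem comp_mono_mem {x y : Set (At I)} {r s t : At I} (hr : r ∈ x) (hs : s ∈ y)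
    (h : Ok (fun _ => True) r s t) : t ∈ comp x y := ⟨r, hr, s, hs, h⟩

theorem bb_pc {i : I} {t : At I} (h1 : Ok (fun _ => True) b b t)
    (h2 : Ok (fun _ => True) p (c i) t) : t = a i := by
  cases t <;> simp_all [Ok, B0]

theorem bb_cq {i : I} {t : At I} (h1 : Ok (fun _ => True) b b t)
    (h2 : Ok (fun _ => True) (c i) q t) : t = a i := by
  cases t <;> simp_all [Ok, B0]

theorem bb_pq {t : At I} (h1 : Ok (fun _ => True) b b t)
    (h2 : Ok (fun _ => True) p q t) : ∃ i, t = a i := by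
  cases t <;> simp_all [Ok, B0]

/-- The whole algebra has no weak representation. -/
theorem no_rep [Fintype I] (U : Type) (h : Set (At I) → Set (U × U))
    (hinj : Set.InjOn h Set.univ) (hbot : h ∅ = ∅)
    (hmeet : ∀ x y, h (x ∩ y) = h x ∩ h y)
    (hcomp : ∀ x y, h (comp x y) = {p : U × U | ∃ w : U, (p.1, w) ∈ h x ∧ (w, p.2) ∈ h y})
    (hconv : ∀ x, h x = {p : U × U | (p.2, p.1) ∈ h x}) : False := by
  classical
  have hmono : ∀ {x y : Set (At I)}, x ⊆ y → h x ⊆ h y := by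
    intro x y hxy
    have : x ∩ y = x := Set.inter_eq_left.2 hxy
    rw [← this, hmeet]
    exact Set.inter_subset_right
  have hsym : ∀ {x : Set (At I)} {M N : U}, (M, N) ∈ h x → (N, M) ∈ h x := by
    intro x M N hMN
    rw [hconv] at hMN
    exact hMN
  have hmem : ∀ {x y : Set (At I)} {M w N : U}, (M, w) ∈ h x → (w, N) ∈ h y →
      (M, N) ∈ h (comp x y) := by
    intro x y M w N h1 h2
    rw [hcomp]
    exact ⟨w, h1, h2⟩
  have hk : (h {k}).Nonempty := by
    rw [Set.nonempty_iff_ne_empty]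
    intro hcon
    have : ({k} : Set (At I)) = ∅ := hinj (Set.mem_univ _) (Set.mem_univ _) (by rw [hcon, hbot])
    exact absurd this (Set.singleton_ne_empty _)
  obtain ⟨⟨X, Y⟩, hXY⟩ := hk
  have hext : ∀ t : At I, Ok (fun _ => True) b t k → ∃ z, (X, z) ∈ h {b} ∧ (z, Y) ∈ h {t} := by
    intro t ht
    have h1 : ({k} : Set (At I)) ⊆ comp {b} {t} := by
      rintro _ rfl
      exact ⟨b, rfl, t, rfl, ht⟩
    have h2 := hmono h1 hXY
    rw [hcomp] at h2
    exact h2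
  obtain ⟨P, hP1, hP2⟩ := hext p (by simp [Ok, B0])
  obtain ⟨Q, hQ1, hQ2⟩ := hext q (by simp [Ok, B0])
  have hR : ∀ i : I, ∃ z, (X, z) ∈ h {b} ∧ (z, Y) ∈ h {c i} := fun i =>
    hext (c i) (by simp [Ok, B0])
  have hPQ : (P, Q) ∈ h (comp {b} {b} ∩ comp {p} {q}) := by
    rw [hmeet]
    exact ⟨hmem (hsym hP1) hQ1, hmem hP2 (hsym hQ2)⟩
  have hi : ∀ i : I, (P, Q) ∈ h (comp {a i} {a i}) := by
    intro i
    obtain ⟨R, hR1, hR2⟩ := hR i
    have h1 : (P, R) ∈ h {a i} := by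
      have : (P, R) ∈ h (comp {b} {b} ∩ comp {p} {c i}) := by
        rw [hmeet]
        exact ⟨hmem (hsym hP1) hR1, hmem hP2 (hsym hR2)⟩
      refine hmono ?_ this
      rintro t ⟨⟨r, hr, s, hs, hok⟩, ⟨r', hr', s', hs', hok'⟩⟩
      rw [Set.mem_singleton_iff] at hr hs hr' hs'
      subst hr; subst hs; subst hr'; subst hs'
      exact bb_pc hok hok'
    have h2 : (R, Q) ∈ h {a i} := by
      have : (R, Q) ∈ h (comp {b} {b} ∩ comp {c i} {q}) := by
        rw [hmeet]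
        exact ⟨hmem (hsym hR1) hQ1, hmem hR2 (hsym hQ2)⟩
      refine hmono ?_ this
      rintro t ⟨⟨r, hr, s, hs, hok⟩, ⟨r', hr', s', hs', hok'⟩⟩
      rw [Set.mem_singleton_iff] at hr hs hr' hs'
      subst hr; subst hs; subst hr'; subst hs'
      exact bb_cq hok hok'
    exact hmem h1 h2
  have hall : ∀ s : Finset I,
      (P, Q) ∈ h ((comp {b} {b} ∩ comp {p} {q}) ∩ ⋂ i ∈ s, comp {a i} {a i}) := by
    intro s
    induction s using Finset.induction_on with
    | empty => simpa using hPQ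
    | insert i s his ih =>
      have : (comp {b} {b} ∩ comp {p} {q}) ∩ ⋂ j ∈ insert i s, comp {a j} {a j} =
          ((comp {b} {b} ∩ comp {p} {q}) ∩ ⋂ j ∈ s, comp {a j} {a j}) ∩
            comp {a i} ({a i} : Set (At I)) := by
        rw [Finset.set_biInter_insert]
        ext t
        simp only [Set.mem_inter_iff]
        tauto
      rw [this, hmeet]
      exact ⟨ih, hi i⟩
  have hfin := hall Finset.univ
  have hempty : (comp {b} {b} ∩ comp {p} {q}) ∩ ⋂ i ∈ (Finset.univ : Finset I),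
      comp {a i} ({a i} : Set (At I)) = ∅ := by
    ext t
    simp only [Set.mem_inter_iff, Set.mem_iInter, Finset.mem_univ, true_imp_iff,
      Set.mem_empty_iff_false, iff_false, not_and]
    rintro ⟨⟨r, hr, s, hs, hok⟩, ⟨r', hr', s', hs', hok'⟩⟩ hcon
    rw [Set.mem_singleton_iff] at hr hs hr' hs'
    subst hr; subst hs; subst hr'; subst hs'
    obtain ⟨i, rfl⟩ := bb_pq hok hok'
    obtain ⟨r, hr, s, hs, hok⟩ := hcon i
    rw [Set.mem_singleton_iff] at hr hs
    subst hr; subst hs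
    simp [Ok, B0] at hok
  rw [hempty, hbot] at hfin
  exact hfin

end NotRep

end Pool.Agent.H94.WRRA
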